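import Mathlib
import Pool.Agent.N266.TI.Stm

/-!
# TI/VAR: the first variation of almost minimizers (helper886, project TI of helper266)
-/

set_option autoImplicit false

namespace Pool.Agent.N886.TI

open MeasureTheory Pool.Agent.N266.TI

variable {n : ℕ}

lemma gr_sq (v : E n → ℝ) (x : E n) : ‖gr v x‖ ^ 2 = ∑ i, fderiv ℝ v x (e i) * fderiv ℝ v x (e i) := by
  rw [EuclideanSpace.norm_sq_eq]
  refine Finset.sum_congr rfl fun i _ => ?_
  unfold gr
  rw [Real.norm_eq_abs, sq_abs, sq]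

lemma En_bil (v : E n → ℝ) : En v = bil v v := by
  unfold En bil
  simp_rw [gr_sq]

lemma d_cont {v : E n → ℝ} (hv : ContDiff ℝ 1 v) (i : Fin n) : Continuous fun x => fderiv ℝ v x (e i) :=
  (hv.continuous_fderiv one_ne_zero).clm_apply continuous_const

lemma d_cs {v : E n → ℝ} (hv : HasCompactSupport v) (i : Fin n) :
    HasCompactSupport fun x => fderiv ℝ v x (e i) := by
  have h := hv.fderiv (𝕜 := ℝ)
  exact h.comp_left (g := fun L : E n →L[ℝ] ℝ => L (e i)) (by simp)

lemma int_prod {v w : E n → ℝ} (hv : ContDiff ℝ 1 v) (hw : ContDiff ℝ 1 w) (hc : HasCompactSupport v) :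
    Integrable fun x => ∑ i, fderiv ℝ v x (e i) * fderiv ℝ w x (e i) := by
  refine integrable_finsetSum _ fun i _ => ?_
  exact ((d_cont hv i).mul (d_cont hw i)).integrable_of_hasCompactSupport ((d_cs hc i).mul_right)

lemma En_nonneg (v : E n → ℝ) : 0 ≤ En v := integral_nonneg fun _ => sq_nonneg _

theorem En_add {v w : E n → ℝ} (hv : ContDiff ℝ 1 v) (hvc : HasCompactSupport v) (hw : ContDiff ℝ 1 w)
    (hwc : HasCompactSupport w) (κ : ℝ) :
    En (fun x => v x + κ * w x) = En v + 2 * κ * bil v w + κ ^ 2 * En w := by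
  rw [En_bil, En_bil, En_bil]
  unfold bil
  have i1 := int_prod hv hv hvc
  have i2 := (int_prod hv hw hvc).const_mul (2 * κ)
  have i3 := (int_prod hw hw hwc).const_mul (κ ^ 2)
  have i4 : Integrable fun x : E n => (∑ i, fderiv ℝ v x (e i) * fderiv ℝ v x (e i)) +
      2 * κ * ∑ i, fderiv ℝ v x (e i) * fderiv ℝ w x (e i) := i1.add i2
  rw [← integral_const_mul, ← integral_const_mul, ← integral_add i1 i2, ← integral_add i4 i3]
  congr 1
  funext x
  have hd : ∀ i, fderiv ℝ (fun x => v x + κ * w x) x (e i) =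
      fderiv ℝ v x (e i) + κ * fderiv ℝ w x (e i) := by
    intro i
    have h1 : DifferentiableAt ℝ v x := hv.differentiable one_ne_zero x
    have h2 : DifferentiableAt ℝ w x := hw.differentiable one_ne_zero x
    have h3 : HasFDerivAt (fun x => v x + κ * w x) (fderiv ℝ v x + κ • fderiv ℝ w x) x :=
      h1.hasFDerivAt.add (h2.hasFDerivAt.const_mul κ)
    rw [h3.fderiv]
    simp
  simp_rw [hd]
  rw [Finset.mul_sum, Finset.mul_sum, ← Finset.sum_add_distrib, ← Finset.sum_add_distrib]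
  refine Finset.sum_congr rfl fun i _ => ?_
  ring

theorem var : VAR := by
  intro n K ψ ζ κ hκ hψ hE hζ hζc hK
  obtain ⟨h1, h2, h3⟩ := hψ
  have hadm : AdmF K (fun x => ψ x + κ * ζ x) := by
    refine ⟨h1.add (contDiff_const.mul hζ), ?_, hK⟩
    exact h2.add (hζc.mul_left (f := fun _ => κ))
  have hcap : cap K ≤ En (fun x => ψ x + κ * ζ x) :=
    csInf_le ⟨0, by rintro _ ⟨φ, _, rfl⟩; exact En_nonneg φ⟩ ⟨_, hadm, rfl⟩
  rw [En_add h1 h2 hζ hζc κ] at hcap
  have h4 : 0 ≤ κ * (κ * (1 + En ζ) / 2 + bil ψ ζ) := by nlinarith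
  have h5 := (mul_nonneg_iff_of_pos_left hκ).1 h4
  linarith

end Pool.Agent.N886.TI
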